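import Pool.Agent.Helper8.UW.T4

/-!
# Project UX, T4': the large values of the resonator under its weight, constant threshold
-/

set_option autoImplicit false
open MeasureTheory Set Filter Topology
open Pool.Agent.Helper57.Zeta Pool.Agent.Helper57.LH Pool.Agent.Helper57.ED Pool.Agent.Helper54.LG
open Pool.Agent.Helper69.UG (pt NX XX NR NM WW near far)
open Pool.Agent.Helper69.UV (ww HH)
open Pool.Agent.Helper69.UW
open Pool.Agent.Helper8.UW (fact_div RR_cont wt_nonneg)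

namespace Pool.Agent.Helper8.UX

/-- the numbers -/
lemma numbers' {δ κ C c0 T c m v : ℝ} (hδ : 0 < δ) (hδ1 : δ ≤ 1 / 32) (hκ : 0 < κ) (hC : 0 < C) (hc3 : 3 ≤ c0) (hc0 : 2 / κ ≤ c0)
    (hA : Adm c0 T c m) (hv : |v| ≤ vv δ c m)
    (hK : (4 / δ + 24 * (C * Real.exp 4) / (δ ^ 6 * κ)) * Real.log c ≤ (v * ll c m) ^ 2) :
    0 < v ^ 2 * ll c m / 2 ∧
    1 ≤ δ * ((1 + δ) * (1 + 2 * δ) * (v ^ 2 * ll c m / 2)) ∧
    (1 + δ) * (1 + 2 * δ) * (v ^ 2 * ll c m / 2) ≤ m / δ ∧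
    δ * ((1 + δ) * (1 + 2 * δ) * (v ^ 2 * ll c m / 2)) ≤ m ∧
    2 * ((1 + δ) * (1 + 2 * δ) * (v ^ 2 * ll c m / 2)) + 6 + Real.log 2 ≤
      (1 + 12 * δ) * (v ^ 2 * ll c m / 2) + (1 - 2 * δ) * (v ^ 2 * ll c m / 2) ∧
    C * (v ^ 2 * ll c m / 2) ^ 2 * Real.exp 4 * Real.exp (-(δ ^ 2 * (v ^ 2 * ll c m / 2))) ≤ κ / 2 ∧
    1 / c ^ 4 ≤ κ / 2 := by
  have hlc := hA.one_le_log
  have hll : 1 ≤ ll c m := by
    refine le_trans ?_ (hA.log_le_ll (by linarith))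
    rw [Real.le_log_iff_exp_le (by linarith)]
    linarith [Real.exp_one_lt_d9]
  have hllc : ll c m ≤ Real.log c := hA.ll_le
  have hm1 := hA.2.1
  have hcc : c0 ≤ c := hA.le_c (by linarith)
  set l := ll c m with hl
  set lc := Real.log c with hlcd
  set D := v ^ 2 * l / 2 with hD
  set K := 4 / δ + 24 * (C * Real.exp 4) / (δ ^ 6 * κ) with hKd
  have hl0 : 0 < l := by linarith
  have he4 : 0 < Real.exp 4 := Real.exp_pos 4
  have hK0 : 0 < K := by rw [hKd]; positivity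
  have hDK : K / 2 ≤ D := by
    have h1 : (v * l) ^ 2 = 2 * D * l := by rw [hD]; ring
    have h2 : K * l ≤ K * lc := mul_le_mul_of_nonneg_left hllc hK0.le
    have h3 : K * l ≤ (2 * D) * l := by
      rw [h1] at hK
      linarith
    have h4 := le_of_mul_le_mul_right h3 hl0
    linarith
  have hD4 : 2 / δ ≤ D := by
    have h1 : 0 ≤ 24 * (C * Real.exp 4) / (δ ^ 6 * κ) := by positivity
    have h2 : 4 / δ ≤ K := by rw [hKd]; linarith
    have h3 : 4 / δ = 2 * (2 / δ) := by ring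
    linarith
  have hDC : 12 * (C * Real.exp 4) / (δ ^ 6 * κ) ≤ D := by
    have h1 : 0 ≤ 4 / δ := by positivity
    have h2 : 24 * (C * Real.exp 4) / (δ ^ 6 * κ) ≤ K := by rw [hKd]; linarith
    have h3 : 24 * (C * Real.exp 4) / (δ ^ 6 * κ) = 2 * (12 * (C * Real.exp 4) / (δ ^ 6 * κ)) := by ring
    linarith
  have hD0 : 0 < D := lt_of_lt_of_le (by positivity) hD4
  have hδD : 2 ≤ δ * D := by
    rw [div_le_iff₀ hδ] at hD4
    linarith
  -- the upper bound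
  have hDup : D ≤ 18 * m := by
    have h1 : |v| ≤ 6 * √m / l := hv.trans (vv_le hδ hδ1 hA (by linarith))
    have h2 : |v| ≤ 6 * √m := h1.trans (div_le_self (by positivity) hll)
    have h3 : |v| * l ≤ 6 * √m := by
      rwa [le_div_iff₀ hl0] at h1
    have h4 : v ^ 2 * l ≤ (6 * √m) * (6 * √m) := by
      rw [← sq_abs, sq, mul_assoc]
      exact mul_le_mul h2 h3 (by positivity) (by positivity)
    have h5 : √m * √m = m := Real.mul_self_sqrt (by linarith)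
    have h6 : (6 * √m) * (6 * √m) = 36 * m := by
      have e : (6 * √m) * (6 * √m) = 36 * (√m * √m) := by ring
      rw [e, h5]
    rw [hD]
    linarith
  have hq1 : 1 ≤ (1 + δ) * (1 + 2 * δ) := by nlinarith
  have hq2 : (1 + δ) * (1 + 2 * δ) ≤ 1 + 25 / 8 * δ := by nlinarith
  have hΛ : (1 + δ) * (1 + 2 * δ) * D ≤ 32 * m := by
    have h1 : (1 + δ) * (1 + 2 * δ) * D ≤ (1 + 25 / 8 * δ) * D := mul_le_mul_of_nonneg_right hq2 hD0.le
    have h2 : (1 + 25 / 8 * δ) * D ≤ (9 / 8) * D := mul_le_mul_of_nonneg_right (by linarith) hD0.le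
    linarith
  refine ⟨hD0, ?_, ?_, ?_, ?_, ?_, ?_⟩
  · have h1 : 1 * D ≤ (1 + δ) * (1 + 2 * δ) * D := mul_le_mul_of_nonneg_right hq1 hD0.le
    have h2 := mul_le_mul_of_nonneg_left h1 hδ.le
    linarith
  · refine hΛ.trans ?_
    rw [le_div_iff₀ hδ]
    have : 32 * m * δ ≤ 32 * m * (1 / 32) := mul_le_mul_of_nonneg_left hδ1 (by linarith)
    linarith
  · calc δ * ((1 + δ) * (1 + 2 * δ) * D) ≤ δ * (32 * m) := mul_le_mul_of_nonneg_left hΛ hδ.le
      _ ≤ (1 / 32) * (32 * m) := mul_le_mul_of_nonneg_right hδ1 (by linarith)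
      _ = m := by ring
  · have h1 : (1 + δ) * (1 + 2 * δ) * D ≤ (1 + 25 / 8 * δ) * D := mul_le_mul_of_nonneg_right hq2 hD0.le
    have hln2 : Real.log 2 ≤ 1 := by
      have := Real.log_two_lt_d9
      linarith
    have e : (1 + 12 * δ) * D + (1 - 2 * δ) * D = 2 * ((1 + 25 / 8 * δ) * D) + 15 / 4 * (δ * D) := by ring
    rw [e]
    linarith
  · have hx : 0 < δ ^ 2 * D := by positivity
    have h1 : (δ ^ 2 * D) ^ 3 / 6 ≤ Real.exp (δ ^ 2 * D) := by
      have := Real.pow_div_factorial_le_exp (δ ^ 2 * D) hx.le 3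
      simpa [Nat.factorial] using this
    have h2 : Real.exp (-(δ ^ 2 * D)) ≤ 6 / (δ ^ 2 * D) ^ 3 := by
      rw [Real.exp_neg, inv_le_comm₀ (Real.exp_pos _) (by positivity), inv_div]
      exact h1
    calc C * D ^ 2 * Real.exp 4 * Real.exp (-(δ ^ 2 * D)) ≤ C * D ^ 2 * Real.exp 4 * (6 / (δ ^ 2 * D) ^ 3) :=
          mul_le_mul_of_nonneg_left h2 (by positivity)
      _ = (6 * (C * Real.exp 4) / δ ^ 6) / D := by
          field_simp
      _ ≤ κ / 2 := by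
          rw [div_le_iff₀ hD0]
          rw [div_le_iff₀ (by positivity)] at hDC
          rw [div_le_iff₀ (by positivity)]
          linarith
  · have hc1 : 1 ≤ c := by linarith
    have h1 : 2 / κ ≤ c ^ 4 := by
      calc 2 / κ ≤ c := hc0.trans hcc
        _ = c ^ 1 := (pow_one c).symm
        _ ≤ c ^ 4 := pow_le_pow_right₀ hc1 (by norm_num)
    rw [div_le_iff₀ (by positivity)]
    rw [div_le_iff₀ hκ] at h1
    linarith

/-- T4' -/
theorem rtail_of {δ : ℝ} (hδ : 0 < δ) (hδ1 : δ ≤ 1 / 32)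
    (hRR : ∃ c0 T0 : ℝ, ∀ T c m v : ℝ, T0 ≤ T → Adm c0 T c m → |v| ≤ vv δ c m →
      ∀ t : ℝ, ‖PP1 δ T c m v t‖ ≤ m / δ → ‖PP2 δ T c m v t‖ ≤ 1 →
        ‖RR δ T c m v t‖ ≤ Real.exp (‖PP1 δ T c m v t‖ + 3))
    (hP : ∃ C c0 T0 : ℝ, 0 < C ∧ ∀ T c m v : ℝ, T0 ≤ T → Adm c0 T c m →
      |v| ≤ vv δ c m → ∀ (s τ : ℝ) (k : ℕ), 0 < s → s ≤ 1 → (k : ℝ) ≤ 4 * m →
      Integrable (fun t => wt δ T c m v τ t * ‖PP1 δ T c m v t‖ ^ (2 * k)) ∧
      ∫ t, wt δ T c m v τ t * ‖PP1 δ T c m v t‖ ^ (2 * k) ≤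
        C * (k.factorial / s ^ k) ^ 2 * Real.exp ((2 * s + s ^ 2) * KK δ T c m v) * VV δ T c m v)
    (hP2 : ∃ c0 T0 : ℝ, ∀ T c m v : ℝ, T0 ≤ T → Adm c0 T c m → |v| ≤ vv δ c m →
      ∀ τ : ℝ, Integrable (fun t => wt δ T c m v τ t * ‖PP2 δ T c m v t‖ ^ 2) ∧
      ∫ t, wt δ T c m v τ t * ‖PP2 δ T c m v t‖ ^ 2 ≤ VV δ T c m v / c ^ 4)
    (hKK : ∃ c0 T0 : ℝ, ∀ T c m v : ℝ, T0 ≤ T → Adm c0 T c m →
      (1 / 2 - δ) * (v ^ 2 * ll c m) ≤ KK δ T c m v ∧ KK δ T c m v ≤ (1 / 2 + δ) * (v ^ 2 * ll c m))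
    (hVV : ∃ c0 T0 : ℝ, ∀ T c m v : ℝ, T0 ≤ T → Adm c0 T c m → |v| ≤ vv δ c m →
      Real.exp (KK δ T c m v) / 2 ≤ VV δ T c m v ∧ VV δ T c m v ≤ Real.exp (KK δ T c m v)) :
    ∀ κ : ℝ, 0 < κ → ∃ K c0 T0 : ℝ, 0 < K ∧ ∀ T c m v : ℝ, T0 ≤ T →
      Adm c0 T c m → |v| ≤ vv δ c m → K * Real.log c ≤ (v * ll c m) ^ 2 → ∀ τ : ℝ,
      ∫ t in {t : ℝ | Real.exp ((1 + 12 * δ) * (v ^ 2 * ll c m / 2)) * VV δ T c m v < ‖RR δ T c m v t‖ ^ 2}, wt δ T c m v τ t ≤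
        κ * VV δ T c m v := by
  intro κ hκ
  obtain ⟨a1, T1, h1⟩ := hRR
  obtain ⟨C, a2, T2, hC, h2⟩ := hP
  obtain ⟨a3, T3, h3⟩ := hP2
  obtain ⟨a4, T4, h4⟩ := hKK
  obtain ⟨a5, T5, h5⟩ := hVV
  have he4 : 0 < Real.exp 4 := Real.exp_pos 4
  refine ⟨4 / δ + 24 * (C * Real.exp 4) / (δ ^ 6 * κ), max (max (max a1 a2) (max a3 a4)) (max (max a5 3) (2 / κ)),
    max (max (max T1 T2) (max T3 T4)) (max T5 1), by positivity, fun T c m v hT hA hv hK τ => ?_⟩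
  set c0 := max (max (max a1 a2) (max a3 a4)) (max (max a5 3) (2 / κ)) with hc0
  have b1 : a1 ≤ c0 := (le_max_left _ _).trans ((le_max_left _ _).trans (le_max_left _ _))
  have b2 : a2 ≤ c0 := (le_max_right _ _).trans ((le_max_left _ _).trans (le_max_left _ _))
  have b3 : a3 ≤ c0 := (le_max_left _ _).trans ((le_max_right _ _).trans (le_max_left _ _))
  have b4 : a4 ≤ c0 := (le_max_right _ _).trans ((le_max_right _ _).trans (le_max_left _ _))
  have b5 : a5 ≤ c0 := (le_max_left _ _).trans ((le_max_left _ _).trans (le_max_right _ _))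
  have b6 : 3 ≤ c0 := (le_max_right _ _).trans ((le_max_left _ _).trans (le_max_right _ _))
  have b7 : 2 / κ ≤ c0 := (le_max_right _ _).trans (le_max_right _ _)
  have t1 : T1 ≤ T := (le_max_left _ _).trans ((le_max_left _ _).trans ((le_max_left _ _).trans hT))
  have t2 : T2 ≤ T := (le_max_right _ _).trans ((le_max_left _ _).trans ((le_max_left _ _).trans hT))
  have t3 : T3 ≤ T := (le_max_left _ _).trans ((le_max_right _ _).trans ((le_max_left _ _).trans hT))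
  have t4 : T4 ≤ T := (le_max_right _ _).trans ((le_max_right _ _).trans ((le_max_left _ _).trans hT))
  have t5 : T5 ≤ T := (le_max_left _ _).trans ((le_max_right _ _).trans hT)
  have t6 : 1 ≤ T := (le_max_right _ _).trans ((le_max_right _ _).trans hT)
  have hT0 : 0 < T := by linarith
  have g1 := h1 T c m v t1 (hA.mono b1) hv
  obtain ⟨g4, g4'⟩ := h4 T c m v t4 (hA.mono b4)
  obtain ⟨g5, g5'⟩ := h5 T c m v t5 (hA.mono b5) hv
  obtain ⟨g3, g3'⟩ := h3 T c m v t3 (hA.mono b3) hv τ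
  obtain ⟨n1, n2, n3, n4, n5, n6, n7⟩ := numbers' hδ hδ1 hκ hC b6 b7 hA hv hK
  set D := v ^ 2 * ll c m / 2 with hD
  set Λ := (1 + δ) * (1 + 2 * δ) * D with hΛ
  have g4a : (1 - 2 * δ) * D ≤ KK δ T c m v := by
    refine le_trans (le_of_eq ?_) g4
    rw [hD]
    ring
  have g4b : KK δ T c m v ≤ (1 + 2 * δ) * D := by
    refine g4'.trans (le_of_eq ?_)
    rw [hD]
    ring
  set k := ⌊δ * Λ⌋₊ with hk
  have hk1 : 1 ≤ k := by
    rw [hk, Nat.one_le_floor_iff]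
    exact n2
  have hk2 : (k : ℝ) ≤ δ * Λ := Nat.floor_le (by linarith)
  have hk3 : δ * Λ ≤ k + 1 := (Nat.lt_floor_add_one _).le
  have hm1 := hA.2.1
  have hc3 := hA.1
  have hkm : (k : ℝ) ≤ m := hk2.trans n4
  have hkD : (k : ℝ) ≤ D := by
    refine hk2.trans ?_
    have e : δ * Λ = (δ * ((1 + δ) * (1 + 2 * δ))) * D := by rw [hΛ]; ring
    rw [e]
    have h6 : δ * ((1 + δ) * (1 + 2 * δ)) ≤ 1 := by nlinarith
    have h7 := mul_le_mul_of_nonneg_right h6 n1.le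
    linarith
  obtain ⟨g2, g2'⟩ := h2 T c m v t2 (hA.mono b2) hv δ τ k hδ (by linarith) (by linarith)
  have hVV0 : 0 < VV δ T c m v := lt_of_lt_of_le (by positivity) g5
  have hΛ0 : 0 < Λ := by
    rw [hΛ]
    positivity
  set A : Set ℝ := {t : ℝ | Real.exp ((1 + 12 * δ) * D) * VV δ T c m v < ‖RR δ T c m v t‖ ^ 2} with hAdef
  have hAm : MeasurableSet A := by
    refine measurableSet_lt measurable_const ?_
    exact ((RR_cont δ T c m v).norm.pow 2).measurable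
  -- on `A` one of the two prime sums is large
  have hone : ∀ t ∈ A, 1 ≤ ‖PP1 δ T c m v t‖ ^ (2 * k) * (Λ ^ (2 * k))⁻¹ + ‖PP2 δ T c m v t‖ ^ 2 := by
    intro t ht
    have hp1 : 0 ≤ ‖PP1 δ T c m v t‖ ^ (2 * k) * (Λ ^ (2 * k))⁻¹ := by positivity
    have hp2 : 0 ≤ ‖PP2 δ T c m v t‖ ^ 2 := by positivity
    rcases lt_or_ge Λ ‖PP1 δ T c m v t‖ with h | h
    · have h6 : Λ ^ (2 * k) ≤ ‖PP1 δ T c m v t‖ ^ (2 * k) := pow_le_pow_left₀ hΛ0.le h.le _
      have h7 : 1 ≤ ‖PP1 δ T c m v t‖ ^ (2 * k) * (Λ ^ (2 * k))⁻¹ := by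
        rw [← div_eq_mul_inv, le_div_iff₀ (by positivity), one_mul]
        exact h6
      linarith
    · rcases lt_or_ge 1 ‖PP2 δ T c m v t‖ with h' | h'
      · have : 1 ≤ ‖PP2 δ T c m v t‖ ^ 2 := one_le_pow₀ h'.le
        linarith
      · exfalso
        have h6 : ‖RR δ T c m v t‖ ^ 2 ≤ Real.exp (2 * Λ + 6) := by
          have h7 : ‖RR δ T c m v t‖ ≤ Real.exp (Λ + 3) := by
            refine (g1 t (h.trans n3) h').trans (Real.exp_le_exp.2 ?_)
            linarith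
          have h8 := pow_le_pow_left₀ (norm_nonneg _) h7 2
          rw [← Real.exp_nat_mul] at h8
          refine h8.trans (le_of_eq ?_)
          congr 1
          push_cast
          ring
        have h7 : Real.exp ((1 + 12 * δ) * D) * (Real.exp ((1 - 2 * δ) * D) / 2) ≤
            Real.exp ((1 + 12 * δ) * D) * VV δ T c m v := by
          refine mul_le_mul_of_nonneg_left ?_ (Real.exp_pos _).le
          have := Real.exp_le_exp.2 g4a
          linarith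
        have h8 : Real.exp ((1 + 12 * δ) * D) * VV δ T c m v < ‖RR δ T c m v t‖ ^ 2 := ht
        have h9 : Real.exp (2 * Λ + 6) ≤ Real.exp ((1 + 12 * δ) * D) * (Real.exp ((1 - 2 * δ) * D) / 2) := by
          have e2 : Real.exp ((1 - 2 * δ) * D) / 2 = Real.exp ((1 - 2 * δ) * D - Real.log 2) := by
            rw [Real.exp_sub, Real.exp_log (by norm_num)]
          rw [e2, ← Real.exp_add]
          refine Real.exp_le_exp.2 ?_
          linarith
        linarith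
  set g : ℝ → ℝ := fun t => (Λ ^ (2 * k))⁻¹ * (wt δ T c m v τ t * ‖PP1 δ T c m v t‖ ^ (2 * k)) +
    wt δ T c m v τ t * ‖PP2 δ T c m v t‖ ^ 2 with hg
  have hgi : Integrable g := (g2.const_mul _).add g3
  have hw0 : ∀ t, 0 ≤ wt δ T c m v τ t := fun t => wt_nonneg hT0 t
  have hg0 : ∀ t, 0 ≤ g t := fun t => by
    have := hw0 t
    simp only [hg]
    positivity
  have hint : ∫ t in A, wt δ T c m v τ t ≤ ∫ t in A, g t := by
    refine integral_mono_of_nonneg (Eventually.of_forall fun t => hw0 t) hgi.integrableOn ?_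
    refine (ae_restrict_iff' hAm).2 (Eventually.of_forall fun t ht => ?_)
    have h6 := hone t ht
    have h7 := mul_le_mul_of_nonneg_left h6 (hw0 t)
    simp only [hg]
    linarith
  have hint2 : ∫ t in A, g t ≤ ∫ t, g t := setIntegral_le_integral hgi (Eventually.of_forall hg0)
  have hint3 : ∫ t, g t = (Λ ^ (2 * k))⁻¹ * (∫ t, wt δ T c m v τ t * ‖PP1 δ T c m v t‖ ^ (2 * k)) +
      ∫ t, wt δ T c m v τ t * ‖PP2 δ T c m v t‖ ^ 2 := by
    rw [hg, integral_add (g2.const_mul _) g3, integral_const_mul]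
  -- the moment
  have hmom : (Λ ^ (2 * k))⁻¹ * (∫ t, wt δ T c m v τ t * ‖PP1 δ T c m v t‖ ^ (2 * k)) ≤ κ / 2 * VV δ T c m v := by
    have hq : (Λ ^ (2 * k))⁻¹ * ((k.factorial : ℝ) / δ ^ k) ^ 2 = ((k.factorial : ℝ) / (δ * Λ) ^ k) ^ 2 := by
      have e1 : Λ ^ (2 * k) = (Λ ^ k) ^ 2 := by rw [← pow_mul, mul_comm]
      have e2 : (δ * Λ) ^ k = δ ^ k * Λ ^ k := mul_pow _ _ _
      have e3 : Λ ^ k ≠ 0 := (pow_pos hΛ0 k).ne'
      have e4 : δ ^ k ≠ 0 := (pow_pos hδ k).ne'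
      rw [e1, e2]
      generalize Λ ^ k = x at e3 ⊢
      generalize δ ^ k = y at e4 ⊢
      field_simp
    have hfd := fact_div hk1 hk2 hk3
    have hfd2 : ((k.factorial : ℝ) / (δ * Λ) ^ k) ^ 2 ≤ D ^ 2 * Real.exp (4 - 2 * (δ * Λ)) := by
      have h6 : (0 : ℝ) ≤ (k.factorial : ℝ) / (δ * Λ) ^ k := by positivity
      have h7 := pow_le_pow_left₀ h6 hfd 2
      refine h7.trans ?_
      rw [mul_pow, ← Real.exp_nat_mul]
      have h8 : (k : ℝ) ^ 2 ≤ D ^ 2 := pow_le_pow_left₀ (by positivity) hkD 2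
      have h9 : ((2 : ℕ) : ℝ) * (2 - δ * Λ) = 4 - 2 * (δ * Λ) := by
        push_cast
        ring
      rw [h9]
      exact mul_le_mul_of_nonneg_right h8 (Real.exp_pos _).le
    have hex : Real.exp (4 - 2 * (δ * Λ)) * Real.exp ((2 * δ + δ ^ 2) * KK δ T c m v) ≤
        Real.exp 4 * Real.exp (-(δ ^ 2 * D)) := by
      rw [← Real.exp_add, ← Real.exp_add]
      refine Real.exp_le_exp.2 ?_
      have h6 : (2 * δ + δ ^ 2) * KK δ T c m v ≤ (2 * δ + δ ^ 2) * ((1 + 2 * δ) * D) :=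
        mul_le_mul_of_nonneg_left g4b (by positivity)
      have h7 : (2 * δ + δ ^ 2) * ((1 + 2 * δ) * D) - 2 * (δ * Λ) = -(δ ^ 2 * D) - 2 * δ ^ 3 * D := by
        rw [hΛ]
        ring
      have h9 : 0 ≤ 2 * δ ^ 3 * D := by positivity
      linarith
    have hΛi : 0 ≤ (Λ ^ (2 * k))⁻¹ := by positivity
    calc (Λ ^ (2 * k))⁻¹ * (∫ t, wt δ T c m v τ t * ‖PP1 δ T c m v t‖ ^ (2 * k)) ≤
          (Λ ^ (2 * k))⁻¹ * (C * (k.factorial / δ ^ k) ^ 2 * Real.exp ((2 * δ + δ ^ 2) * KK δ T c m v) * VV δ T c m v) :=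
          mul_le_mul_of_nonneg_left g2' hΛi
      _ = C * ((Λ ^ (2 * k))⁻¹ * ((k.factorial : ℝ) / δ ^ k) ^ 2) * Real.exp ((2 * δ + δ ^ 2) * KK δ T c m v) * VV δ T c m v := by
          ring
      _ = C * ((k.factorial : ℝ) / (δ * Λ) ^ k) ^ 2 * Real.exp ((2 * δ + δ ^ 2) * KK δ T c m v) * VV δ T c m v := by
          rw [hq]
      _ ≤ C * (D ^ 2 * Real.exp (4 - 2 * (δ * Λ))) * Real.exp ((2 * δ + δ ^ 2) * KK δ T c m v) * VV δ T c m v := by
          gcongr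
      _ = C * D ^ 2 * (Real.exp (4 - 2 * (δ * Λ)) * Real.exp ((2 * δ + δ ^ 2) * KK δ T c m v)) * VV δ T c m v := by
          ring
      _ ≤ C * D ^ 2 * (Real.exp 4 * Real.exp (-(δ ^ 2 * D))) * VV δ T c m v := by
          gcongr
      _ = (C * D ^ 2 * Real.exp 4 * Real.exp (-(δ ^ 2 * D))) * VV δ T c m v := by ring
      _ ≤ (κ / 2) * VV δ T c m v := mul_le_mul_of_nonneg_right n6 hVV0.le
  have hlast : VV δ T c m v / c ^ 4 ≤ κ / 2 * VV δ T c m v := by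
    have h6 := mul_le_mul_of_nonneg_right n7 hVV0.le
    refine le_trans (le_of_eq ?_) h6
    ring
  calc ∫ t in A, wt δ T c m v τ t ≤ ∫ t, g t := hint.trans hint2
    _ ≤ κ / 2 * VV δ T c m v + κ / 2 * VV δ T c m v := by
        rw [hint3]
        linarith
    _ = κ * VV δ T c m v := by ring

end Pool.Agent.Helper8.UX
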