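import Pool.Agent.Helper8.UX.T1
import Pool.Agent.Helper36.UW.Res
import Pool.Agent.Helper7.UW.R3

/-!
# Project UX, T1' without hypotheses
-/

set_option autoImplicit false
open MeasureTheory Set Filter Topology
open Pool.Agent.Helper57.Zeta Pool.Agent.Helper57.LH Pool.Agent.Helper57.ED Pool.Agent.Helper54.LG
open Pool.Agent.Helper69.UG (pt NX XX NR NM WW near far)
open Pool.Agent.Helper69.UV (ww HH)
open Pool.Agent.Helper69.UW

namespace Pool.Agent.Helper8.UX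

/-- T1' -/
theorem RR_pt {δ : ℝ} (hδ : 0 < δ) (hδ1 : δ ≤ 1 / 32) :
    ∃ c0 T0 : ℝ, ∀ T c m v : ℝ, T0 ≤ T → Adm c0 T c m → |v| ≤ vv δ c m →
      ∀ t : ℝ, ‖PP1 δ T c m v t‖ ≤ m / δ → ‖PP2 δ T c m v t‖ ≤ 1 →
        ‖RR δ T c m v t‖ ≤ Real.exp (‖PP1 δ T c m v t‖ + 3) :=
  RR_pt_of hδ hδ1 (fun _T _c _m _v hT hm _n hn => Pool.Agent.Helper36.UW.rr_supp hδ hT hm hn) (Pool.Agent.Helper7.UW.PR_facts hδ hδ1)

end Pool.Agent.Helper8.UX
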