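import Pool.Agent.Helper8.UW.T1a

/-!
# Project UX, T1a': the truncated product against the full one
-/

set_option autoImplicit false
open MeasureTheory Set Filter Topology

namespace Pool.Agent.Helper8.UX

open Pool.Agent.Helper8.UW

/-- `∏ |1 + w x_p|` on the circle of radius `r` -/
lemma norm_prod_le' {Q : Finset ℕ} (x : ℕ → ℂ) {r : ℝ} (hr : 0 ≤ r) (hx : ∀ p ∈ Q, r * ‖x p‖ ≤ 1 / 2) {w : ℂ} (hw : ‖w‖ = r) :
    ‖∏ p ∈ Q, (1 + w * x p)‖ ≤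
      Real.exp (r * ‖∑ p ∈ Q, x p‖ + r ^ 2 * ‖∑ p ∈ Q, x p ^ 2‖ / 2 + r ^ 3 * ∑ p ∈ Q, ‖x p‖ ^ 3) := by
  have _ := hr
  rw [norm_prod]
  have h1 : ∏ p ∈ Q, ‖1 + w * x p‖ ≤ ∏ p ∈ Q, Real.exp ((w * x p - (w * x p) ^ 2 / 2).re + ‖w * x p‖ ^ 3) := by
    refine Finset.prod_le_prod (fun _ _ => norm_nonneg _) fun p hp => norm_one_add_le ?_
    rw [norm_mul, hw]
    exact hx p hp
  refine h1.trans ?_
  rw [← Real.exp_sum]
  refine Real.exp_le_exp.2 ?_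
  rw [Finset.sum_add_distrib]
  have h2 : ∑ p ∈ Q, ‖w * x p‖ ^ 3 = r ^ 3 * ∑ p ∈ Q, ‖x p‖ ^ 3 := by
    rw [Finset.mul_sum]
    refine Finset.sum_congr rfl fun p _ => ?_
    rw [norm_mul, hw, mul_pow]
  have h3 : ∑ p ∈ Q, (w * x p - (w * x p) ^ 2 / 2).re = (w * ∑ p ∈ Q, x p).re - (w ^ 2 * ∑ p ∈ Q, x p ^ 2).re / 2 := by
    rw [← Complex.re_sum, Finset.sum_sub_distrib, Complex.sub_re, Finset.mul_sum, Finset.mul_sum]
    congr 1
    rw [← Finset.sum_div]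
    have e : ∑ p ∈ Q, (w * x p) ^ 2 = ∑ p ∈ Q, w ^ 2 * x p ^ 2 := Finset.sum_congr rfl fun p _ => by ring
    rw [e]
    rw [show (2 : ℂ) = ((2 : ℝ) : ℂ) by norm_num, Complex.div_ofReal_re]
  rw [h2, h3]
  have h4 : (w * ∑ p ∈ Q, x p).re ≤ r * ‖∑ p ∈ Q, x p‖ := by
    refine (Complex.re_le_norm _).trans ?_
    rw [norm_mul, hw]
  have h5 : -(w ^ 2 * ∑ p ∈ Q, x p ^ 2).re ≤ r ^ 2 * ‖∑ p ∈ Q, x p ^ 2‖ := by
    have h6 := Complex.abs_re_le_norm (w ^ 2 * ∑ p ∈ Q, x p ^ 2)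
    rw [norm_mul, norm_pow, hw] at h6
    linarith [neg_abs_le (w ^ 2 * ∑ p ∈ Q, x p ^ 2).re]
  linarith

/-- T1a' -/
theorem esum' {Q : Finset ℕ} (x : ℕ → ℂ) (hx : ∀ p ∈ Q, ‖x p‖ ≤ 1 / 4) (K : ℕ) :
    ‖∑ S ∈ Q.powerset with S.card ≤ K, ∏ p ∈ S, x p‖ ≤
      Real.exp (‖∑ p ∈ Q, x p‖ + ‖∑ p ∈ Q, x p ^ 2‖ + ∑ p ∈ Q, ‖x p‖ ^ 3) +
      (1 / 2) ^ K * Real.exp (2 * ‖∑ p ∈ Q, x p‖ + 2 * ‖∑ p ∈ Q, x p ^ 2‖ + 8 * ∑ p ∈ Q, ‖x p‖ ^ 3) := by
  classical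
  set E := Real.exp (‖∑ p ∈ Q, x p‖ + ‖∑ p ∈ Q, x p ^ 2‖ + ∑ p ∈ Q, ‖x p‖ ^ 3) with hE
  set E' := Real.exp (2 * ‖∑ p ∈ Q, x p‖ + 2 * ‖∑ p ∈ Q, x p ^ 2‖ + 8 * ∑ p ∈ Q, ‖x p‖ ^ 3) with hE'
  have hE'0 : 0 < E' := Real.exp_pos _
  -- the full product
  have hfull : ‖∑ S ∈ Q.powerset, ∏ p ∈ S, x p‖ ≤ E := by
    have h1 : ∑ S ∈ Q.powerset, ∏ p ∈ S, x p = ∏ p ∈ Q, (1 + 1 * x p) := by
      simp only [one_mul]
      rw [Finset.prod_one_add]
    rw [h1]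
    refine (norm_prod_le' (r := 1) x zero_le_one (fun p hp => ?_) (by simp)).trans ?_
    · have := hx p hp
      linarith
    · rw [hE]
      refine Real.exp_le_exp.2 ?_
      have h2 : 0 ≤ ‖∑ p ∈ Q, x p ^ 2‖ := norm_nonneg _
      linarith
  -- one elementary symmetric sum
  have hone : ∀ k : ℕ, ‖∑ S ∈ Q.powersetCard k, ∏ p ∈ S, x p‖ ≤ (1 / 2) ^ k * E' := by
    intro k
    have h1 := esum_one (Q := Q) (fun p => 2 * x p) (E := E') (fun w hw => by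
      have e : ∀ p, w * (2 * x p) = (w * 2) * x p := fun p => by ring
      simp only [e]
      refine (norm_prod_le' (r := 2) x zero_le_two (fun p hp => ?_) (by rw [norm_mul, hw]; norm_num)).trans ?_
      · have := hx p hp
        linarith
      · rw [hE']
        refine Real.exp_le_exp.2 ?_
        linarith) k
    have h2 : ∑ S ∈ Q.powersetCard k, ∏ p ∈ S, (2 * x p) = 2 ^ k * ∑ S ∈ Q.powersetCard k, ∏ p ∈ S, x p := by
      rw [Finset.mul_sum]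
      refine Finset.sum_congr rfl fun S hS => ?_
      rw [Finset.prod_mul_distrib, Finset.prod_const, (Finset.mem_powersetCard.1 hS).2]
    rw [h2, norm_mul, norm_pow] at h1
    have h3 : ‖(2 : ℂ)‖ = 2 := by norm_num
    rw [h3] at h1
    have h4 : (0 : ℝ) < 2 ^ k := by positivity
    have h5 : (1 / 2 : ℝ) ^ k * 2 ^ k = 1 := by
      rw [← mul_pow]
      norm_num
    calc ‖∑ S ∈ Q.powersetCard k, ∏ p ∈ S, x p‖ = (1 / 2 : ℝ) ^ k * (2 ^ k * ‖∑ S ∈ Q.powersetCard k, ∏ p ∈ S, x p‖) := by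
          rw [← mul_assoc, h5, one_mul]
      _ ≤ (1 / 2) ^ k * E' := mul_le_mul_of_nonneg_left h1 (by positivity)
  -- the tail
  have htail : ‖∑ S ∈ Q.powerset with ¬ S.card ≤ K, ∏ p ∈ S, x p‖ ≤ (1 / 2) ^ K * E' := by
    have h1 : ∑ S ∈ Q.powerset with ¬ S.card ≤ K, ∏ p ∈ S, x p =
        ∑ k ∈ Finset.Ico (K + 1) (K + 1 + Q.card), ∑ S ∈ Q.powersetCard k, ∏ p ∈ S, x p := by
      rw [← Finset.sum_fiberwise_of_maps_to (s := Q.powerset.filter fun S => ¬ S.card ≤ K)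
        (t := Finset.Ico (K + 1) (K + 1 + Q.card)) (g := fun S => S.card)]
      · refine Finset.sum_congr rfl fun k hk => ?_
        rw [Finset.mem_Ico] at hk
        refine Finset.sum_congr ?_ fun _ _ => rfl
        ext S
        rw [Finset.mem_filter, Finset.mem_filter, Finset.mem_powerset, Finset.mem_powersetCard]
        constructor
        · rintro ⟨⟨h1, _⟩, h2⟩
          exact ⟨h1, h2⟩
        · rintro ⟨h1, h2⟩
          exact ⟨⟨h1, by omega⟩, h2⟩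
      · intro S hS
        rw [Finset.mem_filter, Finset.mem_powerset] at hS
        have := Finset.card_le_card hS.1
        rw [Finset.mem_Ico]
        omega
    rw [h1]
    refine (norm_sum_le _ _).trans ((Finset.sum_le_sum fun k _ => hone k).trans ?_)
    rw [← Finset.sum_mul]
    refine mul_le_mul_of_nonneg_right ?_ hE'0.le
    have hgeo : ∀ n : ℕ, ∑ k ∈ Finset.Ico (K + 1) (K + 1 + n), (1 / 2 : ℝ) ^ k ≤ (1 / 2) ^ K - (1 / 2) ^ (K + n) := by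
      intro n
      induction n with
      | zero => simp
      | succ n ih =>
        rw [← add_assoc, Finset.sum_Ico_succ_top (by omega)]
        have e1 : (1 / 2 : ℝ) ^ (K + 1 + n) = (1 / 2) ^ (K + n) / 2 := by
          rw [show K + 1 + n = K + n + 1 by ring, pow_succ]
          ring
        have e2 : (1 / 2 : ℝ) ^ (K + (n + 1)) = (1 / 2) ^ (K + n) / 2 := by
          rw [show K + (n + 1) = K + n + 1 by ring, pow_succ]
          ring
        rw [e1, e2]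
        linarith
    have h2 : (0 : ℝ) ≤ (1 / 2) ^ (K + Q.card) := by positivity
    linarith [hgeo Q.card]
  have hsplit := Finset.sum_filter_add_sum_filter_not Q.powerset (fun S => S.card ≤ K) (fun S => ∏ p ∈ S, x p)
  have h3 : ∑ S ∈ Q.powerset with S.card ≤ K, ∏ p ∈ S, x p =
      ∑ S ∈ Q.powerset, ∏ p ∈ S, x p - ∑ S ∈ Q.powerset with ¬ S.card ≤ K, ∏ p ∈ S, x p := by
    rw [← hsplit]
    ring
  rw [h3]
  exact (norm_sub_le _ _).trans (add_le_add hfull htail)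

end Pool.Agent.Helper8.UX
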