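import Pool.Agent.Helper8.UW.T1
import Pool.Agent.Helper8.UX.T1a

/-!
# Project UX, T1': the resonator against its prime sums, without the factor `KR + 1`
-/

set_option autoImplicit false
open MeasureTheory Set Filter Topology
open Pool.Agent.Helper57.Zeta Pool.Agent.Helper57.LH Pool.Agent.Helper57.ED Pool.Agent.Helper54.LG
open Pool.Agent.Helper69.UG (pt NX XX NR NM WW near far)
open Pool.Agent.Helper69.UV (ww HH)
open Pool.Agent.Helper69.UW
open Pool.Agent.Helper8.UW (RR_eq)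

namespace Pool.Agent.Helper8.UX

theorem RR_pt_of {δ : ℝ} (hδ : 0 < δ) (hδ1 : δ ≤ 1 / 32)
    (hR1 : ∀ T c m v : ℝ, 1 ≤ T → 0 < m → ∀ n : ℕ, rr δ T c m v n ≠ 0 → 1 ≤ n ∧ n ≤ NR T ∧ Squarefree n)
    (hR3 : ∃ c0 T0 : ℝ, ∀ T c m : ℝ, T0 ≤ T → Adm c0 T c m →
      (∀ p ∈ PR δ T c m, p.Prime ∧ Real.log T ^ 4 < p ∧ Real.log T ^ 60 < p ∧ (p : ℝ) ≤ T ^ (1 / 1000 : ℝ) ∧
        64 * m * Real.log p ≤ δ * Real.log T ∧ 1 < ww T c p) ∧
      1 ≤ ∑ p ∈ PR δ T c m, (1 / p : ℝ) ∧ ∑ p ∈ PR δ T c m, (1 / p : ℝ) ≤ ll c m) :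
    ∃ c0 T0 : ℝ, ∀ T c m v : ℝ, T0 ≤ T → Adm c0 T c m → |v| ≤ vv δ c m →
      ∀ t : ℝ, ‖PP1 δ T c m v t‖ ≤ m / δ → ‖PP2 δ T c m v t‖ ≤ 1 →
        ‖RR δ T c m v t‖ ≤ Real.exp (‖PP1 δ T c m v t‖ + 3) := by
  obtain ⟨c0, T0, h3⟩ := hR3
  obtain ⟨T1, hT1, hcL⟩ := Adm.c_le 1
  refine ⟨max c0 3, max (max T0 T1) (Real.exp 2), fun T c m v hT hA hv t hP1 hP2 => ?_⟩
  have hTT0 : T0 ≤ T := (le_max_left _ _).trans ((le_max_left _ _).trans hT)
  have hTT1 : T1 ≤ T := (le_max_right _ _).trans ((le_max_left _ _).trans hT)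
  have hTe : Real.exp 2 ≤ T := (le_max_right _ _).trans hT
  have hT1' : 1 ≤ T := by linarith
  have hT0 : 0 < T := by linarith
  set L := Real.log T with hL
  have hL2 : 2 ≤ L := by
    rw [hL, Real.le_log_iff_exp_le hT0]
    exact hTe
  have hA0 : Adm c0 T c m := hA.mono (le_max_left _ _)
  have hA3 : Adm 3 T c m := hA.mono (le_max_right _ _)
  obtain ⟨hpr, -, hS1⟩ := h3 T c m hTT0 hA0
  have hm0 : 0 < m := by linarith [hA.2.1]
  have hc0 : 0 < c := by linarith [hA.1]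
  have hcL' : c ≤ L := by
    have := hcL _ T c m hTT1 hA
    linarith
  have hmL : m ≤ L := (hA3.m_le_c (by norm_num)).trans hcL'
  have hll1 : 1 ≤ ll c m := by
    refine le_trans ?_ (hA3.log_le_ll (by norm_num))
    rw [Real.le_log_iff_exp_le (by norm_num)]
    linarith [Real.exp_one_lt_d9]
  have hllL : ll c m ≤ L := by
    refine hA3.ll_le.trans ?_
    have := Real.log_le_sub_one_of_pos hc0
    linarith
  have hsm : √m ≤ L := by
    rw [Real.sqrt_le_left (by linarith)]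
    nlinarith
  have hvL : |v| ≤ 6 * L := by
    refine (hv.trans (vv_le hδ hδ1 hA3 (by norm_num))).trans ?_
    rw [div_le_iff₀ (by linarith)]
    nlinarith [Real.sqrt_nonneg m]
  -- the terms
  set x : ℕ → ℂ := fun p => (rp T c v p : ℂ) * (p : ℂ) ^ (-((1 / 2 : ℂ) + (t : ℂ) * Complex.I)) with hx
  have hsw : ∀ p, |sw T c p| ≤ 1 := fun p => Real.abs_sin_le_one _
  have hrp : ∀ p, |rp T c v p| ≤ 6 * L := by
    intro p
    unfold rp
    rw [abs_mul]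
    calc |v| * |sw T c p| ≤ |v| * 1 := mul_le_mul_of_nonneg_left (hsw p) (abs_nonneg _)
      _ ≤ 6 * L := by linarith
  have hxn : ∀ p ∈ PR δ T c m, ‖x p‖ = |rp T c v p| * (p : ℝ) ^ (-(1 / 2) : ℝ) := by
    intro p hp
    have hp0 := (hpr p hp).1.pos
    rw [hx]
    simp only
    rw [norm_mul, Complex.norm_real, Complex.norm_natCast_cpow_of_pos hp0]
    simp
  have hps : ∀ p ∈ PR δ T c m, (p : ℝ) ^ (-(1 / 2) : ℝ) ≤ (L ^ 30)⁻¹ := by
    intro p hp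
    have h60 := (hpr p hp).2.2.1
    have hL60 : 0 < L ^ 60 := by positivity
    have h1 : (p : ℝ) ^ (-(1 / 2) : ℝ) ≤ (L ^ 60) ^ (-(1 / 2) : ℝ) :=
      Real.rpow_le_rpow_of_nonpos hL60 h60.le (by norm_num)
    have h2 : (L ^ 60 : ℝ) ^ (-(1 / 2) : ℝ) = (L ^ 30)⁻¹ := by
      rw [Real.rpow_neg hL60.le, ← Real.sqrt_eq_rpow, show L ^ 60 = (L ^ 30) ^ 2 by ring, Real.sqrt_sq (by positivity)]
    rwa [h2] at h1
  have hL30 : 0 < L ^ 30 := by positivity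
  have hx2 : ∀ p ∈ PR δ T c m, ‖x p‖ ≤ 6 * L * (L ^ 30)⁻¹ := by
    intro p hp
    rw [hxn p hp]
    exact mul_le_mul (hrp p) (hps p hp) (Real.rpow_nonneg (Nat.cast_nonneg _) _) (by positivity)
  have hL29 : (2 : ℝ) ^ 29 ≤ L ^ 29 := pow_le_pow_left₀ (by norm_num) hL2 29
  have hsmall : 6 * L * (L ^ 30)⁻¹ ≤ 1 / 4 := by
    rw [← div_eq_mul_inv, div_le_iff₀ hL30]
    have e : L ^ 30 = L * L ^ 29 := by ring
    rw [e]
    nlinarith
  have hxh : ∀ p ∈ PR δ T c m, ‖x p‖ ≤ 1 / 4 := fun p hp => (hx2 p hp).trans hsmall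
  have hcub : ∑ p ∈ PR δ T c m, ‖x p‖ ^ 3 ≤ 1 / 8 := by
    have h1 : ∀ p ∈ PR δ T c m, ‖x p‖ ^ 3 ≤ 216 * L ^ 3 * (L ^ 30)⁻¹ * (1 / p) := by
      intro p hp
      have hp0 : (0 : ℝ) < p := by exact_mod_cast (hpr p hp).1.pos
      have hq : ((p : ℝ) ^ (-(1 / 2) : ℝ)) ^ 2 = 1 / p := by
        rw [← Real.rpow_natCast, ← Real.rpow_mul hp0.le]
        norm_num
        rw [Real.rpow_neg_one]
      have hq0 : 0 ≤ (p : ℝ) ^ (-(1 / 2) : ℝ) := Real.rpow_nonneg hp0.le _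
      rw [hxn p hp, mul_pow]
      have h2 : |rp T c v p| ^ 3 ≤ (6 * L) ^ 3 := pow_le_pow_left₀ (abs_nonneg _) (hrp p) 3
      have h3 : ((p : ℝ) ^ (-(1 / 2) : ℝ)) ^ 3 ≤ (L ^ 30)⁻¹ * (1 / p) := by
        rw [pow_succ, hq, mul_comm]
        exact mul_le_mul_of_nonneg_right (hps p hp) (by positivity)
      calc |rp T c v p| ^ 3 * ((p : ℝ) ^ (-(1 / 2) : ℝ)) ^ 3 ≤ (6 * L) ^ 3 * ((L ^ 30)⁻¹ * (1 / p)) :=
            mul_le_mul h2 h3 (by positivity) (by positivity)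
        _ = _ := by ring
    refine (Finset.sum_le_sum h1).trans ?_
    rw [← Finset.mul_sum]
    calc 216 * L ^ 3 * (L ^ 30)⁻¹ * ∑ p ∈ PR δ T c m, (1 / p : ℝ) ≤ 216 * L ^ 3 * (L ^ 30)⁻¹ * L :=
          mul_le_mul_of_nonneg_left (hS1.trans hllL) (by positivity)
      _ ≤ 1 / 8 := by
          rw [show 216 * L ^ 3 * (L ^ 30)⁻¹ * L = 216 * L ^ 4 / L ^ 30 by ring, div_le_iff₀ hL30]
          have h26 : (2 : ℝ) ^ 26 ≤ L ^ 26 := pow_le_pow_left₀ (by norm_num) hL2 26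
          calc 216 * L ^ 4 ≤ 1 / 8 * 2 ^ 26 * L ^ 4 := by
                refine mul_le_mul_of_nonneg_right (by norm_num) (by positivity)
            _ ≤ 1 / 8 * L ^ 26 * L ^ 4 := by
                refine mul_le_mul_of_nonneg_right ?_ (by positivity)
                linarith
            _ = 1 / 8 * L ^ 30 := by ring
  rw [RR_eq hT1' hm0 hR1 t]
  refine (esum' x hxh (KR δ m)).trans ?_
  have e1 : ∑ p ∈ PR δ T c m, x p = PP1 δ T c m v t := rfl
  have e2 : ∑ p ∈ PR δ T c m, x p ^ 2 = PP2 δ T c m v t := rfl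
  rw [e1, e2]
  set a := ‖PP1 δ T c m v t‖ with ha
  set b := ‖PP2 δ T c m v t‖ with hb
  set q := ∑ p ∈ PR δ T c m, ‖x p‖ ^ 3 with hq
  have hmd : 1 ≤ m / δ := by
    rw [le_div_iff₀ hδ]
    linarith [hA.2.1]
  have h1 : Real.exp (a + b + q) ≤ Real.exp (a + 3) / 2 := by
    have h2 : Real.exp (a + b + q) ≤ Real.exp (a + 2) := Real.exp_le_exp.2 (by linarith)
    have h3 : Real.exp (a + 3) = Real.exp (a + 2) * Real.exp 1 := by
      rw [← Real.exp_add]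
      congr 1
      ring
    have h4 : (2 : ℝ) ≤ Real.exp 1 := by linarith [Real.exp_one_gt_d9]
    have h5 := mul_le_mul_of_nonneg_left h4 (Real.exp_pos (a + 2)).le
    linarith
  have hK : (1 / 2 : ℝ) ^ KR δ m ≤ Real.exp (1 - 5 * (m / δ)) := by
    have h2 : 8 * m / δ ≤ (KR δ m : ℝ) + 1 := (Nat.lt_floor_add_one _).le
    have h3 : (1 / 2 : ℝ) = Real.exp (-Real.log 2) := by
      rw [Real.exp_neg, Real.exp_log (by norm_num)]
      norm_num
    rw [h3, ← Real.exp_nat_mul]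
    refine Real.exp_le_exp.2 ?_
    have h4 : (0.6931471803 : ℝ) < Real.log 2 := Real.log_two_gt_d9
    have h4' : Real.log 2 < 0.6931471808 := Real.log_two_lt_d9
    have h5 : (8 * (m / δ) - 1) * Real.log 2 ≤ KR δ m * Real.log 2 := by
      refine mul_le_mul_of_nonneg_right ?_ (by linarith)
      have : 8 * m / δ = 8 * (m / δ) := by ring
      linarith
    have h6 : 5 * (m / δ) ≤ 8 * (m / δ) * Real.log 2 := by nlinarith
    linarith
  have h2 : (1 / 2 : ℝ) ^ KR δ m * Real.exp (2 * a + 2 * b + 8 * q) ≤ Real.exp (a + 3) / 2 := by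
    calc (1 / 2 : ℝ) ^ KR δ m * Real.exp (2 * a + 2 * b + 8 * q) ≤
          Real.exp (1 - 5 * (m / δ)) * Real.exp (2 * a + 2 * b + 8 * q) :=
          mul_le_mul_of_nonneg_right hK (Real.exp_pos _).le
      _ = Real.exp (1 - 5 * (m / δ) + (2 * a + 2 * b + 8 * q)) := (Real.exp_add _ _).symm
      _ ≤ Real.exp (a + 2) := Real.exp_le_exp.2 (by linarith)
      _ ≤ Real.exp (a + 3) / 2 := by
          have h3 : Real.exp (a + 3) = Real.exp (a + 2) * Real.exp 1 := by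
            rw [← Real.exp_add]
            congr 1
            ring
          have h4 : (2 : ℝ) ≤ Real.exp 1 := by linarith [Real.exp_one_gt_d9]
          have h5 := mul_le_mul_of_nonneg_left h4 (Real.exp_pos (a + 2)).le
          linarith
  linarith

end Pool.Agent.Helper8.UX
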